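import Mathlib
import Pool.Agent.H649R2.Levels

/-!
For each `n ≥ 3` there are classes of (finite) structures, closed under isomorphism, whose
isomorphism problems are properly `Σ⁰_n`, respectively properly `Π⁰_n`, but not complete at that
level; and there is one whose isomorphism problem is properly `Σ¹₁` but not `Σ¹₁`-complete.
-/

set_option autoImplicit false

namespace Pool.Agent.Results.MP_be00aa_lc.ProperIncomplete

open Nat.Partrec (Code)
open Encodable

/-- A structure for the language with one binary relation symbol, with universe `U ⊆ ω`. Only the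
restriction of `R` to `U` matters. -/
structure Str where
  /-- the universe -/
  U : Set ℕ
  /-- the relation -/
  R : ℕ → ℕ → Prop

/-- `A` and `B` are isomorphic. -/
def Iso (A B : Str) : Prop :=
  ∃ f : A.U ≃ B.U, ∀ x y : A.U, A.R x y ↔ B.R (f x) (f y)

/-- The atomic diagram of `A`, as a set of numbers: `⟨0, x⟩` codes that `x` is in the universe and
`⟨1, ⟨x, y⟩⟩` codes that `x` and `y` are in the universe and `R(x, y)` holds. -/
def Diagram (A : Str) : Set ℕ :=
  {z | (z.unpair.1 = 0 ∧ z.unpair.2 ∈ A.U) ∨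
    (z.unpair.1 = 1 ∧ z.unpair.2.unpair.1 ∈ A.U ∧ z.unpair.2.unpair.2 ∈ A.U ∧
      A.R z.unpair.2.unpair.1 z.unpair.2.unpair.2)}

open Classical in
/-- `e` is an index of the computable structure `A` (that is, `A = 𝒜_e`): the `e`-th partial
computable function is the characteristic function of the atomic diagram of `A`. -/
def IsIndex (e : ℕ) (A : Str) : Prop :=
  ∀ z, (Denumerable.ofNat Code e).eval z = Part.some (if z ∈ Diagram A then 1 else 0)

/-- `K` is closed under isomorphism. -/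
def IsoClosed (K : Set Str) : Prop := ∀ A ∈ K, ∀ B, Iso A B → B ∈ K

/-- The isomorphism problem `E(K)`: the set of the pairs `(a, b)` of indices of isomorphic
(computable) members of `K`. -/
def IsoProblem (K : Set Str) (p : ℕ × ℕ) : Prop :=
  ∃ A ∈ K, ∃ B ∈ K, IsIndex p.1 A ∧ IsIndex p.2 B ∧ Iso A B

/-- The `Σ⁰_n` predicates: the computable ones for `n = 0`; and `p` is `Σ⁰_{n+1}` when
`p a ↔ ∃ m, ¬ q (a, m)` for a `Σ⁰_n` predicate `q`. -/
def Sigma0 : (n : ℕ) → {α : Type} → [Primcodable α] → (α → Prop) → Prop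
  | 0, _, _, p => ComputablePred p
  | n + 1, α, _, p => ∃ q : α × ℕ → Prop, Sigma0 n q ∧ ∀ a, p a ↔ ∃ m, ¬ q (a, m)

/-- The `Π⁰_n` predicates: the negations of the `Σ⁰_n` predicates. -/
def Pi0 (n : ℕ) {α : Type} [Primcodable α] (p : α → Prop) : Prop := Sigma0 n fun a => ¬ p a

/-- The `Σ¹₁` predicates, in normal form: `p a` holds iff for some `f : ℕ → ℕ` the computable
predicate `R` holds of `(a, (f 0, …, f (n - 1)))` for all `n`. -/
def Sigma11 {α : Type} [Primcodable α] (p : α → Prop) : Prop :=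
  ∃ R : α × List ℕ → Prop, ComputablePred R ∧
    ∀ a, p a ↔ ∃ f : ℕ → ℕ, ∀ n, R (a, (List.range n).map f)

/-- The levels considered: `Σ⁰_n`, `Π⁰_n` and `Σ¹₁`. -/
inductive Level
  | sigma (n : ℕ)
  | pi (n : ℕ)
  | sigma11

/-- `p` lies at the level `Γ`. -/
def Level.Mem (Γ : Level) {α : Type} [Primcodable α] (p : α → Prop) : Prop :=
  match Γ with
  | .sigma n => Sigma0 n p
  | .pi n => Pi0 n p
  | .sigma11 => Sigma11 p

/-- `p` lies properly at the level `Γ`: it is in `Γ` but not in the corresponding class `Δ`, that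
is, its negation is not in `Γ`. -/
def Level.Proper (Γ : Level) {α : Type} [Primcodable α] (p : α → Prop) : Prop :=
  Γ.Mem p ∧ ¬ Γ.Mem fun a => ¬ p a

/-- `p` is `Γ`-complete: it is in `Γ` and every set of natural numbers in `Γ` is many-one reducible
to it by a computable function. -/
def Level.Complete (Γ : Level) {α : Type} [Primcodable α] (p : α → Prop) : Prop :=
  Γ.Mem p ∧ ∀ q : ℕ → Prop, Γ.Mem q → ∃ f : ℕ → α, Computable f ∧ ∀ x, q x ↔ p (f x)

/-- The levels from the third on. -/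
def Level.High (Γ : Level) : Prop :=
  match Γ with
  | .sigma n => 3 ≤ n
  | .pi n => 3 ≤ n
  | .sigma11 => True

/-! ### finite directed cycles -/

/-- the directed cycle with `n + 1` elements -/
def Cyc (n : ℕ) : Str := ⟨{x | x ≤ n}, fun x y => y = (x + 1) % (n + 1)⟩

/-- the class of the directed cycles with `n + 1` elements for some `n ∈ S` -/
def KS (S : Set ℕ) : Set Str := {A | ∃ n ∈ S, Iso (Cyc n) A}

theorem Iso.symm {A B : Str} (h : Iso A B) : Iso B A := by
  obtain ⟨f, hf⟩ := h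
  exact ⟨f.symm, fun x y => by rw [hf]; simp⟩

theorem Iso.trans {A B C : Str} (h : Iso A B) (h' : Iso B C) : Iso A C := by
  obtain ⟨f, hf⟩ := h
  obtain ⟨g, hg⟩ := h'
  exact ⟨f.trans g, fun x y => (hf x y).trans (hg _ _)⟩

theorem ks_closed (S : Set ℕ) : IsoClosed (KS S) := by
  rintro A ⟨n, hn, h⟩ B hB
  exact ⟨n, hn, h.trans hB⟩

/-- the cycle on a list -/
def StrL (l : List ℕ) : Str := ⟨{x | x ∈ l}, fun x y =>
  ∃ i < l.length, l[i]?.getD 0 = x ∧ l[(i + 1) % l.length]?.getD 0 = y⟩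

theorem getD_eq {l : List ℕ} {i : ℕ} (h : i < l.length) : l[i]?.getD 0 = l[i] := by
  rw [List.getElem?_eq_getElem h]; rfl

theorem getD_inj {l : List ℕ} (hl : l.Nodup) {i j : ℕ} (hi : i < l.length) (hj : j < l.length)
    (h : l[i]?.getD 0 = l[j]?.getD 0) : i = j := by
  rw [getD_eq hi, getD_eq hj] at h
  exact (List.Nodup.getElem_inj_iff hl).1 h

theorem iso_strL {l : List ℕ} {n : ℕ} (hl : l.Nodup) (hn : l.length = n + 1) :
    Iso (Cyc n) (StrL l) := by
  have hmem : ∀ i, i ≤ n → l[i]?.getD 0 ∈ l := by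
    intro i hi
    rw [getD_eq (by omega)]
    exact List.getElem_mem _
  let f : (Cyc n).U → (StrL l).U := fun x => ⟨l[x.1]?.getD 0, hmem x.1 x.2⟩
  have hf : Function.Bijective f := by
    constructor
    · rintro ⟨x, hx⟩ ⟨y, hy⟩ h
      have hx' : x ≤ n := hx
      have hy' : y ≤ n := hy
      have h1 : l[x]?.getD 0 = l[y]?.getD 0 := congrArg Subtype.val h
      exact Subtype.ext (getD_inj hl (show x < l.length by omega)
        (show y < l.length by omega) h1)
    · rintro ⟨y, hy⟩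
      obtain ⟨i, hi, rfl⟩ := List.mem_iff_getElem.1 (show y ∈ l from hy)
      refine ⟨⟨i, show i ≤ n by omega⟩, Subtype.ext ?_⟩
      exact getD_eq hi
  refine ⟨Equiv.ofBijective f hf, ?_⟩
  rintro ⟨x, hx⟩ ⟨y, hy⟩
  have hx' : x ≤ n := hx
  have hy' : y ≤ n := hy
  show y = (x + 1) % (n + 1) ↔ ∃ i < l.length, l[i]?.getD 0 = l[x]?.getD 0 ∧
    l[(i + 1) % l.length]?.getD 0 = l[y]?.getD 0
  constructor
  · intro h
    exact ⟨x, by omega, rfl, by rw [hn, ← h]⟩
  · rintro ⟨i, hi, h1, h2⟩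
    have h3 := getD_inj hl hi (by omega) h1
    have h4 := getD_inj hl (Nat.mod_lt _ (by omega)) (by omega) h2
    rw [← h4, h3, hn]

theorem diagram_eq {A B : Str} (h1 : ∀ x, x ∈ A.U ↔ x ∈ B.U)
    (h2 : ∀ x y, x ∈ A.U → y ∈ A.U → (A.R x y ↔ B.R x y)) : Diagram A = Diagram B := by
  ext z
  unfold Diagram
  refine or_congr (and_congr_right fun _ => h1 _) (and_congr_right fun _ => ?_)
  constructor
  · rintro ⟨a, b, c⟩
    exact ⟨(h1 _).1 a, (h1 _).1 b, (h2 _ _ a b).1 c⟩
  · rintro ⟨a, b, c⟩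
    exact ⟨(h1 _).2 a, (h1 _).2 b, (h2 _ _ ((h1 _).2 a) ((h1 _).2 b)).2 c⟩

theorem IsIndex.congr {e : ℕ} {A B : Str} (h : IsIndex e A) (h' : Diagram A = Diagram B) :
    IsIndex e B := by
  intro z
  rw [h z, h']

theorem IsIndex.eq {e : ℕ} {A B : Str} (h : IsIndex e A) (h' : IsIndex e B) :
    Diagram A = Diagram B := by
  ext z
  have := (h z).symm.trans (h' z)
  rw [Part.some_inj] at this
  by_cases h1 : z ∈ Diagram A <;> by_cases h2 : z ∈ Diagram B <;> simp_all

theorem mem_U_of {A : Str} {x : ℕ} : Nat.pair 0 x ∈ Diagram A ↔ x ∈ A.U := by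
  unfold Diagram
  simp

theorem exists_list {A : Str} {n : ℕ} (h : Iso (Cyc n) A) :
    ∃ l : List ℕ, l.Nodup ∧ l.length = n + 1 ∧ Diagram A = Diagram (StrL l) := by
  classical
  obtain ⟨f, hf⟩ := h
  let g : ℕ → ℕ := fun i => if hi : i ≤ n then (f ⟨i, hi⟩ : ℕ) else 0
  have hg : ∀ i (hi : i ≤ n), g i = f ⟨i, hi⟩ := fun i hi => by simp only [g]; rw [dif_pos hi]
  have hlen : ((List.range (n + 1)).map g).length = n + 1 := by simp
  have hget : ∀ i, i ≤ n → ((List.range (n + 1)).map g)[i]?.getD 0 = g i := by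
    intro i hi
    have : i < n + 1 := by omega
    simp [this]
  have hmem : ∀ x, x ∈ A.U ↔ x ∈ (List.range (n + 1)).map g := by
    intro x
    rw [List.mem_map]
    constructor
    · intro hx
      obtain ⟨⟨i, hi⟩, h1⟩ := f.surjective ⟨x, hx⟩
      have hi' : i ≤ n := hi
      refine ⟨i, List.mem_range.2 (by omega), ?_⟩
      rw [hg i hi, h1]
    · rintro ⟨i, hi, rfl⟩
      have hi' : i ≤ n := by have := List.mem_range.1 hi; omega
      rw [hg i hi']
      exact (f _).2
  refine ⟨(List.range (n + 1)).map g, ?_, hlen, diagram_eq hmem ?_⟩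
  · refine List.Nodup.map_on ?_ List.nodup_range
    intro i hi j hj hij
    have hi' : i ≤ n := by have := List.mem_range.1 hi; omega
    have hj' : j ≤ n := by have := List.mem_range.1 hj; omega
    rw [hg i hi', hg j hj'] at hij
    have := f.injective (Subtype.ext hij)
    exact congrArg Subtype.val this
  · intro x y hx hy
    obtain ⟨⟨i, hi⟩, h1⟩ := f.surjective ⟨x, hx⟩
    obtain ⟨⟨j, hj⟩, h2⟩ := f.surjective ⟨y, hy⟩
    have hi' : i ≤ n := hi
    have hj' : j ≤ n := hj
    have hx' : g i = x := by rw [hg i hi, h1]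
    have hy' : g j = y := by rw [hg j hj, h2]
    have h3 := hf ⟨i, hi⟩ ⟨j, hj⟩
    rw [h1, h2] at h3
    rw [← h3]
    show j = (i + 1) % (n + 1) ↔ ∃ k < ((List.range (n + 1)).map g).length,
      ((List.range (n + 1)).map g)[k]?.getD 0 = x ∧
      ((List.range (n + 1)).map g)[(k + 1) % ((List.range (n + 1)).map g).length]?.getD 0 = y
    rw [hlen]
    have hinj : ∀ a b, a ≤ n → b ≤ n → g a = g b → a = b := by
      intro a b ha hb hab
      rw [hg a ha, hg b hb] at hab
      exact congrArg Subtype.val (f.injective (Subtype.ext hab))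
    constructor
    · intro h4
      refine ⟨i, by omega, ?_, ?_⟩
      · rw [hget i hi', hx']
      · rw [← h4, hget j hj', hy']
    · rintro ⟨k, hk, h5, h6⟩
      rw [hget k (by omega), ← hx'] at h5
      have h7 : (k + 1) % (n + 1) ≤ n := Nat.lt_succ_iff.1 (Nat.mod_lt (k + 1) (Nat.succ_pos n))
      rw [hget _ h7, ← hy'] at h6
      have h8 := hinj _ _ (by omega) hi' h5
      have h9 := hinj _ _ h7 hj' h6
      rw [← h9, h8]

/-- `a` is an index of a cycle with `n + 1` elements -/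
def NN (a n : ℕ) : Prop := ∃ l : List ℕ, l.Nodup ∧ l.length = n + 1 ∧ IsIndex a (StrL l)

theorem NN.unique {a n m : ℕ} (h : NN a n) (h' : NN a m) : n = m := by
  obtain ⟨l, h1, h2, h3⟩ := h
  obtain ⟨l', h1', h2', h3'⟩ := h'
  have h4 := h3.eq h3'
  have h5 : l.toFinset = l'.toFinset := by
    ext x
    rw [List.mem_toFinset, List.mem_toFinset]
    have h6 : Nat.pair 0 x ∈ Diagram (StrL l) ↔ Nat.pair 0 x ∈ Diagram (StrL l') := by rw [h4]
    rw [mem_U_of, mem_U_of] at h6
    exact h6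
  have h6 : l.length = l'.length := by
    rw [← List.toFinset_card_of_nodup h1, ← List.toFinset_card_of_nodup h1', h5]
  omega

theorem isoProblem_iff (S : Set ℕ) (p : ℕ × ℕ) :
    IsoProblem (KS S) p ↔ ∃ n ∈ S, NN p.1 n ∧ NN p.2 n := by
  constructor
  · rintro ⟨A, ⟨n, hn, hA⟩, B, _, h1, h2, h3⟩
    obtain ⟨l, hl1, hl2, hl3⟩ := exists_list hA
    obtain ⟨l', hl1', hl2', hl3'⟩ := exists_list (hA.trans h3)
    exact ⟨n, hn, ⟨l, hl1, hl2, h1.congr hl3⟩, ⟨l', hl1', hl2', h2.congr hl3'⟩⟩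
  · rintro ⟨n, hn, ⟨l, h1, h2, h3⟩, ⟨l', h1', h2', h3'⟩⟩
    exact ⟨StrL l, ⟨n, hn, iso_strL h1 h2⟩, StrL l', ⟨n, hn, iso_strL h1' h2'⟩, h3, h3',
      (iso_strL h1 h2).symm.trans (iso_strL h1' h2')⟩

/-! ### decoding -/

open Pool.Agent.Helper446 Pool.Agent.Helper446.RE Pool.Agent.H649R2

/-- the value of the characteristic function of the diagram of the cycle on `l` -/
def dd (l : List ℕ) (z : ℕ) : Bool :=
  (decide (z.unpair.1 = 0) && decide (z.unpair.2 ∈ l)) ||
    (decide (z.unpair.1 = 1) && (List.range l.length).any fun i =>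
      decide (l[i]?.getD 0 = z.unpair.2.unpair.1) &&
        decide (l[(i + 1) % l.length]?.getD 0 = z.unpair.2.unpair.2))

theorem dd_iff (l : List ℕ) (z : ℕ) : dd l z = true ↔ z ∈ Diagram (StrL l) := by
  unfold dd Diagram StrL
  simp only [Bool.or_eq_true, Bool.and_eq_true, decide_eq_true_eq, List.any_eq_true,
    List.mem_range]
  refine or_congr Iff.rfl (and_congr_right fun _ => ?_)
  constructor
  · rintro ⟨i, hi, h1, h2⟩
    have h3 : 0 < l.length := by omega
    refine ⟨?_, ?_, i, hi, h1, h2⟩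
    · rw [← h1, getD_eq hi]
      exact List.getElem_mem _
    · rw [← h2, getD_eq (Nat.mod_lt _ h3)]
      exact List.getElem_mem _
  · rintro ⟨_, _, i, hi, h1, h2⟩
    exact ⟨i, hi, h1, h2⟩

theorem isIndex_iff (e : ℕ) (l : List ℕ) : IsIndex e (StrL l) ↔
    ∀ z, (Denumerable.ofNat Code e).eval z = Part.some (if dd l z = true then 1 else 0) := by
  unfold IsIndex
  refine forall_congr' fun z => ?_
  by_cases h : z ∈ Diagram (StrL l)
  · rw [if_pos h, if_pos ((dd_iff l z).2 h)]
  · rw [if_neg h, if_neg fun h' => h ((dd_iff l z).1 h')]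

/-- a closed walk has been found -/
def Walk (a s : ℕ) (l : List ℕ) : Prop := l.Nodup ∧ 0 < l.length ∧ ∀ i < l.length,
  Code.evaln s (Denumerable.ofNat Code a)
    (Nat.pair 1 (Nat.pair (l[i]?.getD 0) (l[(i + 1) % l.length]?.getD 0))) = some 1

theorem walk_exists {a n : ℕ} (h : NN a n) : ∃ s l, Walk a s l ∧ l.length = n + 1 := by
  obtain ⟨l, h1, h2, h3⟩ := h
  rw [isIndex_iff] at h3
  have h4 : ∀ i, i < l.length → ∃ s, Code.evaln s (Denumerable.ofNat Code a)
      (Nat.pair 1 (Nat.pair (l[i]?.getD 0) (l[(i + 1) % l.length]?.getD 0))) = some 1 := by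
    intro i hi
    have h5 := h3 (Nat.pair 1 (Nat.pair (l[i]?.getD 0) (l[(i + 1) % l.length]?.getD 0)))
    rw [if_pos] at h5
    · have h6 : 1 ∈ (Denumerable.ofNat Code a).eval
        (Nat.pair 1 (Nat.pair (l[i]?.getD 0) (l[(i + 1) % l.length]?.getD 0))) := by
        rw [h5]; exact Part.mem_some 1
      obtain ⟨s, hs⟩ := Code.evaln_complete.1 h6
      exact ⟨s, hs⟩
    · rw [dd_iff]
      refine Or.inr ⟨by simp, ?_, ?_, i, hi, by simp, by simp⟩
      · simp only [Nat.unpair_pair]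
        show _ ∈ l
        rw [getD_eq hi]
        exact List.getElem_mem _
      · simp only [Nat.unpair_pair]
        show _ ∈ l
        rw [getD_eq (Nat.mod_lt _ (by omega))]
        exact List.getElem_mem _
  choose! s hs using h4
  refine ⟨((List.range l.length).map s).sum, l, ⟨h1, by omega, fun i hi => ?_⟩, h2⟩
  have h5 : s i ≤ ((List.range l.length).map s).sum :=
    List.single_le_sum (by simp) _ (List.mem_map.2 ⟨i, List.mem_range.2 hi, rfl⟩)
  exact Code.evaln_mono h5 (hs i hi)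

theorem walk_length {a n s : ℕ} {l : List ℕ} (h : NN a n) (hw : Walk a s l) :
    l.length = n + 1 := by
  obtain ⟨l0, h1, h2, h3⟩ := h
  obtain ⟨w1, w2, w3⟩ := hw
  have h4 : ∀ i < l.length, ∃ j < l0.length, l0[j]?.getD 0 = l[i]?.getD 0 ∧
      l0[(j + 1) % l0.length]?.getD 0 = l[(i + 1) % l.length]?.getD 0 := by
    intro i hi
    have h5 := h3 (Nat.pair 1 (Nat.pair (l[i]?.getD 0) (l[(i + 1) % l.length]?.getD 0)))
    have h6 := Code.evaln_sound (w3 i hi)
    rw [h5, Part.mem_some_iff] at h6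
    have h7 : Nat.pair 1 (Nat.pair (l[i]?.getD 0) (l[(i + 1) % l.length]?.getD 0)) ∈
        Diagram (StrL l0) := by
      by_contra hc
      rw [if_neg hc] at h6
      omega
    rcases h7 with h7 | ⟨_, _, _, j, hj, h8, h9⟩
    · have := h7.1
      rw [Nat.unpair_pair] at this
      exact absurd this (by simp)
    · simp only [Nat.unpair_pair] at h8 h9
      exact ⟨j, hj, h8, h9⟩
  choose! j hj1 hj2 hj3 using h4
  -- the positions advance by one
  have h5 : ∀ i < l.length, j ((i + 1) % l.length) = (j i + 1) % l0.length := by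
    intro i hi
    have h6 : (i + 1) % l.length < l.length := Nat.mod_lt _ w2
    refine getD_inj h1 (hj1 _ h6) (Nat.mod_lt _ (by omega)) ?_
    rw [hj2 _ h6, hj3 i hi]
  have h6 : ∀ i < l.length, j i = (j 0 + i) % l0.length := by
    intro i
    induction i with
    | zero =>
      intro _
      rw [Nat.add_zero, Nat.mod_eq_of_lt (hj1 0 w2)]
    | succ i ih =>
      intro hi
      have h7 := h5 i (by omega)
      rw [Nat.mod_eq_of_lt hi, ih (by omega), Nat.mod_add_mod] at h7
      rw [h7, Nat.add_assoc]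
  -- closing up
  have h7 : (j 0 + l.length) % l0.length = j 0 % l0.length := by
    have h8 := h5 (l.length - 1) (by omega)
    have h9 : l.length - 1 + 1 = l.length := by omega
    rw [h9, Nat.mod_self, h6 (l.length - 1) (by omega), Nat.mod_add_mod, Nat.add_assoc, h9] at h8
    rw [← h8, Nat.mod_eq_of_lt (hj1 0 w2)]
  have h8 : l0.length ∣ l.length := by
    have h9 : j 0 + l.length ≡ j 0 + 0 [MOD l0.length] := h7
    exact (Nat.modEq_zero_iff_dvd).1 (Nat.ModEq.add_left_cancel' _ h9)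
  have h9 : l.length ≤ l0.length := by
    have hsub : l ⊆ l0 := by
      intro x hx
      obtain ⟨i, hi, rfl⟩ := List.mem_iff_getElem.1 hx
      rw [← getD_eq hi, ← hj2 i hi, getD_eq (hj1 i hi)]
      exact List.getElem_mem _
    exact (List.Nodup.subperm w1 hsub).length_le
  have h10 := Nat.le_of_dvd w2 h8
  omega

/-! ### complexity -/

open Pool.Agent.Helper446.CB (Sig Pi)

section complexity

variable {α : Type} [Primcodable α]

theorem c_mod {f g : α → ℕ} (hf : Computable f) (hg : Computable g) :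
    Computable fun a => f a % g a := Primrec.nat_mod.to_comp.comp hf hg

theorem c_getD {f : α → List ℕ} {g : α → ℕ} (hf : Computable f) (hg : Computable g) :
    Computable fun a => (f a)[g a]?.getD 0 :=
  Computable.option_getD (Computable.list_getElem?.comp hf hg) (Computable.const 0)

theorem p_nodup {l : α → List ℕ} (hl : Computable l) : ComputablePred fun a => (l a).Nodup := by
  have h : Sig 0 fun a => ∀ j < (l a).length, ∀ i < j, (l a)[i]? ≠ (l a)[j]? := by
    refine CB.Sig.all_lt (p := fun a j => ∀ i < j, (l a)[i]? ≠ (l a)[j]?) ?_ (by fun_prop)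
    refine CB.Sig.all_lt (p := fun (x : α × ℕ) i => (l x.1)[i]? ≠ (l x.1)[x.2]?) ?_ (by fun_prop)
    refine ComputablePred.not (RE.cp_eq ?_ ?_) <;> fun_prop
  refine ComputablePred.of_eq h fun a => ?_
  rw [List.nodup_iff_getElem?_ne_getElem?]
  constructor
  · intro h i j hij hj; exact h j hj i hij
  · intro h j hj i hi; exact h i j hi hj

theorem p_walk {a s : α → ℕ} {l : α → List ℕ} (ha : Computable a) (hs : Computable s)
    (hl : Computable l) : REPred fun x => Walk (a x) (s x) (l x) := by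
  unfold Walk
  refine RE.and (RE.cp_nodup hl) (RE.and (RE.lt (by fun_prop) (by fun_prop)) ?_)
  refine RE.all_lt (p := fun x i => Code.evaln (s x) (Denumerable.ofNat Code (a x))
    (Nat.pair 1 (Nat.pair ((l x)[i]?.getD 0) ((l x)[(i + 1) % (l x).length]?.getD 0))) = some 1)
    ?_ (by fun_prop)
  refine RE.eq (c_evaln' (by fun_prop) (by fun_prop) ?_) (by fun_prop)
  have h1 : Computable fun y : α × ℕ => (l y.1)[y.2]?.getD 0 := c_getD (by fun_prop) (by fun_prop)
  have h2 : Computable fun y : α × ℕ => (l y.1)[(y.2 + 1) % (l y.1).length]?.getD 0 :=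
    c_getD (by fun_prop) (c_mod (by fun_prop) (by fun_prop))
  fun_prop

theorem p_dd : ComputablePred fun x : List ℕ × ℕ => dd x.1 x.2 = true := by
  have hl : Computable fun x : List ℕ × ℕ => x.1 := Computable.fst
  have h1 : ComputablePred fun x : List ℕ × ℕ => x.2.unpair.1 = 0 ∧ x.2.unpair.2 ∈ x.1 :=
    CB.cp_and (RE.cp_eq (by fun_prop) (by fun_prop)) (RE.cp_mem (by fun_prop) (by fun_prop))
  have h2 : ComputablePred fun x : List ℕ × ℕ => ∃ i ∈ List.range x.1.length,
      x.1[i]?.getD 0 = x.2.unpair.2.unpair.1 ∧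
        x.1[(i + 1) % x.1.length]?.getD 0 = x.2.unpair.2.unpair.2 := by
    refine CB.cp_bex (p := fun (x : List ℕ × ℕ) i => x.1[i]?.getD 0 = x.2.unpair.2.unpair.1 ∧
        x.1[(i + 1) % x.1.length]?.getD 0 = x.2.unpair.2.unpair.2) ?_ ?_
    · refine CB.cp_and (RE.cp_eq (c_getD (by fun_prop) (by fun_prop)) (by fun_prop))
        (RE.cp_eq (c_getD (by fun_prop) (c_mod (by fun_prop) (by fun_prop))) (by fun_prop))
    · exact CB.crange (by fun_prop)
  have h3 : ComputablePred fun x : List ℕ × ℕ => x.2.unpair.1 = 1 :=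
    RE.cp_eq (by fun_prop) (by fun_prop)
  refine (CB.cp_or h1 (CB.cp_and h3 h2)).of_eq fun x => ?_
  unfold dd
  simp only [Bool.or_eq_true, Bool.and_eq_true, decide_eq_true_eq, List.any_eq_true,
    List.mem_range]

theorem c_dd : Computable fun x : List ℕ × ℕ => dd x.1 x.2 :=
  (RE.cdecide p_dd).of_eq fun x => by simp

theorem c_ddn : Computable fun x : List ℕ × ℕ => (if dd x.1 x.2 = true then 1 else 0 : ℕ) :=
  RE.cite p_dd (by fun_prop) (by fun_prop)

/-- totality -/
def Tot (e : ℕ) : Prop := ∀ z, ∃ q : ℕ × ℕ, Code.evaln q.1 (Denumerable.ofNat Code e) z = some q.2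

/-- consistency with the cycle on `l` -/
def Cons (e : ℕ) (l : List ℕ) : Prop := ∀ q : ℕ × ℕ,
  Code.evaln q.1 (Denumerable.ofNat Code e) q.2 = none ∨
    Code.evaln q.1 (Denumerable.ofNat Code e) q.2 = some (if dd l q.2 = true then 1 else 0)

theorem isIndex_iff' (e : ℕ) (l : List ℕ) : IsIndex e (StrL l) ↔ Tot e ∧ Cons e l := by
  rw [isIndex_iff]
  constructor
  · intro h
    constructor
    · intro z
      have h1 : (if dd l z = true then 1 else 0) ∈ (Denumerable.ofNat Code e).eval z := by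
        rw [h z]; exact Part.mem_some _
      obtain ⟨s, hs⟩ := Code.evaln_complete.1 h1
      exact ⟨(s, _), hs⟩
    · rintro ⟨s, z⟩
      show Code.evaln s (Denumerable.ofNat Code e) z = none ∨
        Code.evaln s (Denumerable.ofNat Code e) z = some (if dd l z = true then 1 else 0)
      rcases h1 : Code.evaln s (Denumerable.ofNat Code e) z with _ | v
      · exact Or.inl rfl
      · right
        have h2 := Code.evaln_sound h1
        rw [h z, Part.mem_some_iff] at h2
        rw [h2]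
  · rintro ⟨h1, h2⟩ z
    obtain ⟨⟨s, v⟩, hq⟩ := h1 z
    have h3 := Code.evaln_sound hq
    rcases h2 (s, z) with h4 | h4
    · rw [h4] at hq
      exact absurd hq (by simp)
    · rw [h4, Option.some_inj] at hq
      rw [hq]
      exact Part.eq_some_iff.2 h3

theorem pi_Tot : Pi 2 Tot := by
  unfold Tot
  refine Pi.all (p := fun e z => ∃ q : ℕ × ℕ,
    Code.evaln q.1 (Denumerable.ofNat Code e) z = some q.2) (CB.Sig.pi ?_)
  refine Sig.ex (p := fun (x : ℕ × ℕ) (q : ℕ × ℕ) =>
    Code.evaln q.1 (Denumerable.ofNat Code x.1) x.2 = some q.2) (CB.Sig.of_cp ?_)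
  exact RE.cp_eq (c_evaln' (by fun_prop) (by fun_prop) (by fun_prop)) (by fun_prop)

theorem pi_Cons : Pi 1 fun p : ℕ × List ℕ => Cons p.1 p.2 := by
  unfold Cons
  refine Pi.all (p := fun (x : ℕ × List ℕ) (q : ℕ × ℕ) =>
    Code.evaln q.1 (Denumerable.ofNat Code x.1) q.2 = none ∨
      Code.evaln q.1 (Denumerable.ofNat Code x.1) q.2 =
        some (if dd x.2 q.2 = true then 1 else 0)) (CB.Pi.of_cp ?_)
  have h1 : Computable fun y : (ℕ × List ℕ) × ℕ × ℕ =>
      Code.evaln y.2.1 (Denumerable.ofNat Code y.1.1) y.2.2 :=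
    c_evaln' (by fun_prop) (by fun_prop) (by fun_prop)
  refine CB.cp_or (RE.cp_eq h1 (by fun_prop)) (RE.cp_eq h1 ?_)
  refine Computable.option_some.comp ?_
  exact c_ddn.comp (f := fun x : List ℕ × ℕ => (if dd x.1 x.2 = true then 1 else 0 : ℕ))
    (g := fun y : (ℕ × List ℕ) × ℕ × ℕ => (y.1.2, y.2.2)) (by fun_prop)

/-- the `Σ⁰₂` part of `NN` -/
def NC (a n : ℕ) : Prop := ∃ l : List ℕ, (l.Nodup ∧ l.length = n + 1) ∧ Cons a l

theorem NN_iff (a n : ℕ) : NN a n ↔ Tot a ∧ NC a n := by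
  unfold NN NC
  constructor
  · rintro ⟨l, h1, h2, h3⟩
    rw [isIndex_iff'] at h3
    exact ⟨h3.1, l, ⟨h1, h2⟩, h3.2⟩
  · rintro ⟨h1, l, ⟨h2, h3⟩, h4⟩
    exact ⟨l, h2, h3, (isIndex_iff' a l).2 ⟨h1, h4⟩⟩

theorem sig_NC : Sig 2 fun p : ℕ × ℕ => NC p.1 p.2 := by
  unfold NC
  refine Sig.ex (p := fun (p : ℕ × ℕ) (l : List ℕ) =>
    (l.Nodup ∧ l.length = p.2 + 1) ∧ Cons p.1 l) (CB.Sig.and (CB.Sig.of_cp ?_) (CB.Pi.sig ?_))
  · exact CB.cp_and (p_nodup (by fun_prop)) (RE.cp_eq (by fun_prop) (by fun_prop))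
  · exact pi_Cons.comp (f := fun x : (ℕ × ℕ) × List ℕ => (x.1.1, x.2)) (by fun_prop)

theorem sig_NN : Sig 3 fun p : ℕ × ℕ => NN p.1 p.2 :=
  (CB.Sig.and ((pi_Tot.comp (f := fun p : ℕ × ℕ => p.1) (by fun_prop)).toSig (by omega))
    sig_NC.succ).of_iff fun p => (NN_iff p.1 p.2).symm

theorem pi_NN : Pi 3 fun p : ℕ × ℕ => NN p.1 p.2 :=
  (CB.Pi.and ((pi_Tot.comp (f := fun p : ℕ × ℕ => p.1) (by fun_prop)).succ)
    sig_NC.pi).of_iff fun p => (NN_iff p.1 p.2).symm

/-- the graph of the decoding function -/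
def GG (x : (ℕ × ℕ) × ℕ) : Prop := NN x.1.1 (pp x.2) ∧ NN x.1.2 (pp x.2)

theorem GG_unique (a : ℕ × ℕ) (k k' : ℕ) (h : GG (a, k)) (h' : GG (a, k')) : k = k' :=
  pp_strictMono.injective (h.1.unique h'.1)

theorem sig_GG : Sig 3 GG := by
  have h : Sig 3 fun x : (ℕ × ℕ) × ℕ => ∃ y, pp x.2 = y ∧ NN x.1.1 y ∧ NN x.1.2 y := by
    refine CB.Sig.exN (p := fun (x : (ℕ × ℕ) × ℕ) y => pp x.2 = y ∧ NN x.1.1 y ∧ NN x.1.2 y)
      (CB.Sig.and ?_ (CB.Sig.and ?_ ?_))
    · exact (sig_pp.comp (f := fun z : ((ℕ × ℕ) × ℕ) × ℕ => (z.1.2, z.2)) (by fun_prop)).succ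
    · exact sig_NN.comp (f := fun z : ((ℕ × ℕ) × ℕ) × ℕ => (z.1.1.1, z.2)) (by fun_prop)
    · exact sig_NN.comp (f := fun z : ((ℕ × ℕ) × ℕ) × ℕ => (z.1.1.2, z.2)) (by fun_prop)
  refine h.of_iff fun x => ?_
  unfold GG
  constructor
  · rintro ⟨y, rfl, h1⟩
    exact h1
  · intro h1
    exact ⟨_, rfl, h1⟩

theorem pi_GG : Pi 3 fun a : ℕ × ℕ => ∃ k, GG (a, k) := by
  have h : Sig 2 fun a : ℕ × ℕ => ∃ q : ℕ × ℕ, pp q.1 = q.2 ∧ NC a.1 q.2 ∧ NC a.2 q.2 := by
    refine CB.Sig.ex (p := fun (a : ℕ × ℕ) (q : ℕ × ℕ) => pp q.1 = q.2 ∧ NC a.1 q.2 ∧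
      NC a.2 q.2) (CB.Sig.and ?_ (CB.Sig.and ?_ ?_))
    · exact (sig_pp.comp (f := fun z : (ℕ × ℕ) × ℕ × ℕ => (z.2.1, z.2.2)) (by fun_prop))
    · exact sig_NC.comp (f := fun z : (ℕ × ℕ) × ℕ × ℕ => (z.1.1, z.2.2)) (by fun_prop)
    · exact sig_NC.comp (f := fun z : (ℕ × ℕ) × ℕ × ℕ => (z.1.2, z.2.2)) (by fun_prop)
  have h1 : Pi 3 fun a : ℕ × ℕ => (Tot a.1 ∧ Tot a.2) ∧
      ∃ q : ℕ × ℕ, pp q.1 = q.2 ∧ NC a.1 q.2 ∧ NC a.2 q.2 :=
    CB.Pi.and (CB.Pi.and (pi_Tot.comp (f := fun a : ℕ × ℕ => a.1) (by fun_prop)).succ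
      (pi_Tot.comp (f := fun a : ℕ × ℕ => a.2) (by fun_prop)).succ) h.pi
  refine h1.of_iff fun a => ?_
  unfold GG
  simp only [NN_iff]
  constructor
  · rintro ⟨⟨h2, h3⟩, q, h4, h5, h6⟩
    rw [← h4] at h5 h6
    exact ⟨q.1, ⟨h2, h5⟩, h3, h6⟩
  · rintro ⟨k, ⟨h2, h5⟩, h3, h6⟩
    exact ⟨⟨h2, h3⟩, (k, pp k), rfl, h5, h6⟩

end complexity

/-! ### the construction -/

theorem idx_cyc : ∃ c : ℕ → ℕ, Computable c ∧ ∀ n, NN (c n) n := by
  have h1 : Computable fun p : ℕ × ℕ => (if dd (List.range (p.1 + 1)) p.2 = true then 1 else 0 : ℕ) :=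
    c_ddn.comp (f := fun x : List ℕ × ℕ => (if dd x.1 x.2 = true then 1 else 0 : ℕ))
      (g := fun p : ℕ × ℕ => (List.range (p.1 + 1), p.2))
      ((CB.crange (by fun_prop)).pair (by fun_prop))
  obtain ⟨c, hc⟩ := Code.exists_code.1 h1.partrec
  refine ⟨fun n => encode (Code.curry c n), ?_, fun n => ?_⟩
  · exact Computable.encode.comp ((Code.primrec₂_curry.to_comp).comp (Computable.const c)
      Computable.id)
  · refine ⟨List.range (n + 1), List.nodup_range, by simp, ?_⟩
    rw [isIndex_iff]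
    intro z
    rw [Denumerable.ofNat_encode, Code.eval_curry, hc]
    simp

theorem main {Γ : H649R2.Level} (hΓ : Good Γ) : ∃ K : Set Str, IsoClosed K ∧ Γ (IsoProblem K) ∧
    ¬ Γ (fun a => ¬ IsoProblem K a) ∧
    ¬ ∀ q : ℕ → Prop, Γ q → ∃ f : ℕ → ℕ × ℕ, Computable f ∧ ∀ x, q x ↔ IsoProblem K (f x) := by
  obtain ⟨W, hW, hu⟩ := hΓ.univ
  let C : ℕ → Prop := fun x => W (x, x)
  let S : Set ℕ := {n | ∃ k, C k ∧ pp k = n}
  have hE : ∀ a : ℕ × ℕ, IsoProblem (KS S) a ↔ ∃ k, GG (a, k) ∧ C k := by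
    intro a
    rw [isoProblem_iff]
    constructor
    · rintro ⟨n, ⟨k, hk, rfl⟩, h1, h2⟩
      exact ⟨k, ⟨h1, h2⟩, hk⟩
    · rintro ⟨k, ⟨h1, h2⟩, hk⟩
      exact ⟨pp k, ⟨k, hk, rfl⟩, h1, h2⟩
  obtain ⟨c, hc, hcn⟩ := idx_cyc
  refine ⟨KS S, ks_closed S, ?_, ?_, ?_⟩
  · refine hΓ.iff (hΓ.fs sig_GG pi_GG GG_unique (hΓ.comp hW (f := fun x : ℕ => (x, x))
      (by fun_prop))) fun a => (hE a).symm
  · intro h
    -- pulling back along `k ↦ pp k`
    have h1 : Γ fun y : ℕ => ¬ IsoProblem (KS S) (c y, c y) :=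
      hΓ.comp h (f := fun y : ℕ => (c y, c y)) (hc.pair hc)
    have h2 : Γ fun k : ℕ => ∃ y, pp k = y ∧ ¬ IsoProblem (KS S) (c y, c y) := by
      refine hΓ.fs (G := fun x : ℕ × ℕ => pp x.1 = x.2) sig_pp.succ ?_ ?_ h1
      · refine (CB.Pi.of_cp (p := fun _ : ℕ => True) ?_).of_iff fun a => by simp
        exact (RE.cp_eq (Computable.const ()) (Computable.const ())).of_eq (fun _ => by simp)
      · intro a k k' h3 h4
        exact h3.symm.trans h4
    obtain ⟨e, he⟩ := hu _ h2
    have h3 := he e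
    have h4 : (∃ y, pp e = y ∧ ¬ IsoProblem (KS S) (c y, c y)) ↔ ¬ C e := by
      constructor
      · rintro ⟨y, rfl, hy⟩ hCe
        exact hy ((hE _).2 ⟨e, ⟨hcn _, hcn _⟩, hCe⟩)
      · intro hCe
        refine ⟨_, rfl, fun h5 => hCe ?_⟩
        obtain ⟨k, hk, hC⟩ := (hE _).1 h5
        rwa [← GG_unique _ _ _ hk ⟨hcn _, hcn _⟩]
    have h5 : C e ↔ W (e, e) := Iff.rfl
    rw [h4] at h3
    tauto
  · intro hcomp
    -- a diagonal predicate
    have hP : Γ fun z : ℕ => W (z.unpair.1, Nat.pair z.unpair.2 z) :=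
      hΓ.comp hW (f := fun z : ℕ => (z.unpair.1, Nat.pair z.unpair.2 z)) (by fun_prop)
    obtain ⟨f, hf, hfe⟩ := hcomp _ hP
    have hL : Computable fun w : ℕ => Denumerable.ofNat (List ℕ) w.unpair.1 :=
      (Computable.ofNat (List ℕ)).comp (by fun_prop)
    have hfw : Computable fun w : ℕ => f w.unpair.2 := hf.comp (by fun_prop)
    have hQ : Γ fun w : ℕ => ¬ ∃ n ∈ Denumerable.ofNat (List ℕ) w.unpair.1,
        NN (f w.unpair.2).1 n ∧ NN (f w.unpair.2).2 n := by
      have c1 : Computable fun x : ℕ × ℕ => ((f x.1.unpair.2).1, x.2) :=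
        (Computable.fst.comp (hfw.comp Computable.fst)).pair Computable.snd
      have c2 : Computable fun x : ℕ × ℕ => ((f x.1.unpair.2).2, x.2) :=
        (Computable.snd.comp (hfw.comp Computable.fst)).pair Computable.snd
      refine hΓ.delta ?_ ?_
      · exact CB.Pi.not (CB.Pi.bex (p := fun w n => NN (f w.unpair.2).1 n ∧
          NN (f w.unpair.2).2 n) (CB.Pi.and (pi_NN.comp c1) (pi_NN.comp c2)) hL)
      · exact CB.Sig.not (CB.Sig.bex (p := fun w n => NN (f w.unpair.2).1 n ∧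
          NN (f w.unpair.2).2 n) (CB.Sig.and (sig_NN.comp c1) (sig_NN.comp c2)) hL)
    obtain ⟨e, he⟩ := hu _ hQ
    -- the point associated with a finite set
    let z : List ℕ → ℕ := fun D => Nat.pair e (encode D)
    have hz : Computable z := by
      show Computable fun D : List ℕ => Nat.pair e (encode D)
      fun_prop
    have key : ∀ D : List ℕ, (∀ n ∈ D, n ∈ S) → ∃ n, n ∈ S ∧ n ∉ D ∧ NN (f (z D)).1 n := by
      intro D hD
      have h1 := he (Nat.pair (encode D) (z D))
      simp only [Nat.unpair_pair, Denumerable.ofNat_encode] at h1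
      have h2 := hfe (z D)
      simp only [z, Nat.unpair_pair] at h2
      have h3 : (¬ ∃ n ∈ D, NN (f (z D)).1 n ∧ NN (f (z D)).2 n) ↔ IsoProblem (KS S) (f (z D)) :=
        h1.trans h2
      have h4 : ¬ ∃ n ∈ D, NN (f (z D)).1 n ∧ NN (f (z D)).2 n := by
        intro h5
        have h6 : IsoProblem (KS S) (f (z D)) := by
          obtain ⟨n, hn, h7⟩ := h5
          rw [isoProblem_iff]
          exact ⟨n, hD n hn, h7⟩
        exact (h3.2 h6) h5
      have h5 := h3.1 h4
      rw [isoProblem_iff] at h5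
      obtain ⟨n, hn, h6, h7⟩ := h5
      exact ⟨n, hn, fun hn' => h4 ⟨n, hn', h6, h7⟩, h6⟩
    -- long lists of elements of `S`
    let R : ℕ → List ℕ → Prop := fun k L => L.length = k + 1 ∧ ∀ i < L.length,
      ∃ q : ℕ × List ℕ, Walk (f (z (L.drop (i + 1)))).1 q.1 q.2 ∧ q.2.length = L[i]?.getD 0 + 1
    have hR : REPred fun x : ℕ × List ℕ => R x.1 x.2 := by
      refine RE.and (RE.eq (by fun_prop) (by fun_prop)) ?_
      refine RE.all_lt (p := fun (x : ℕ × List ℕ) i => ∃ q : ℕ × List ℕ,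
        Walk (f (z (x.2.drop (i + 1)))).1 q.1 q.2 ∧ q.2.length = x.2[i]?.getD 0 + 1) ?_
        (by fun_prop)
      refine RE.ex (p := fun (y : (ℕ × List ℕ) × ℕ) (q : ℕ × List ℕ) =>
        Walk (f (z (y.1.2.drop (y.2 + 1)))).1 q.1 q.2 ∧ q.2.length = y.1.2[y.2]?.getD 0 + 1) ?_
      refine RE.and ?_ (RE.eq (by fun_prop) ?_)
      · have hd : Computable fun y : ((ℕ × List ℕ) × ℕ) × ℕ × List ℕ =>
            y.1.1.2.drop (y.1.2 + 1) :=
          Primrec.list_drop.to_comp.comp (by fun_prop) (by fun_prop)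
        exact p_walk (Computable.fst.comp (hf.comp (hz.comp hd))) (by fun_prop) (by fun_prop)
      · refine Computable.succ.comp (c_getD (by fun_prop) (by fun_prop))
    have hR0 : ∀ L : List ℕ, (∀ i < L.length, ∃ q : ℕ × List ℕ,
        Walk (f (z (L.drop (i + 1)))).1 q.1 q.2 ∧ q.2.length = L[i]?.getD 0 + 1) →
        L.Nodup ∧ ∀ n ∈ L, n ∈ S := by
      intro L
      induction L with
      | nil => intro _; simp
      | cons n L ih =>
        intro h
        have h1 := ih fun i hi => by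
          have := h (i + 1) (by simpa using hi)
          simpa using this
        obtain ⟨m, hm1, hm2, hm3⟩ := key L h1.2
        obtain ⟨q, hq1, hq2⟩ := h 0 (by simp)
        have h2 : q.2.length = m + 1 := by
          refine walk_length hm3 (s := q.1) ?_
          simpa using hq1
        have h3 : n = m := by
          rw [h2] at hq2
          simpa using hq2.symm
        subst h3
        refine ⟨List.nodup_cons.2 ⟨hm2, h1.1⟩, ?_⟩
        intro k hk
        rcases List.mem_cons.1 hk with rfl | hk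
        · exact hm1
        · exact h1.2 k hk
    have hR1 : ∀ k, ∃ L, R k L := by
      intro k
      induction k with
      | zero =>
        obtain ⟨m, hm1, hm2, hm3⟩ := key [] (by simp)
        obtain ⟨s, l, hw, hl⟩ := walk_exists hm3
        refine ⟨[m], rfl, fun i hi => ?_⟩
        have : i = 0 := by simpa using hi
        subst this
        exact ⟨(s, l), hw, hl⟩
      | succ k ih =>
        obtain ⟨L, hL1, hL2⟩ := ih
        obtain ⟨m, hm1, hm2, hm3⟩ := key L (hR0 L hL2).2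
        obtain ⟨s, l, hw, hl⟩ := walk_exists hm3
        refine ⟨m :: L, by simp [hL1], fun i hi => ?_⟩
        cases i with
        | zero => exact ⟨(s, l), hw, hl⟩
        | succ i =>
          have := hL2 i (by simpa using hi)
          simpa using this
    obtain ⟨g, hg, hg1, hg2⟩ := RE.uniformize hR
    have hgd : ∀ k, (g k).Dom := fun k => (hg1 k).2 (hR1 k)
    let G : ℕ → List ℕ := fun k => (g k).get (hgd k)
    have hG : Computable G := by
      refine hg.of_eq_tot fun k => ?_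
      exact Part.get_mem _
    have hGR : ∀ k, R k (G k) := fun k => hg2 k _ (Part.get_mem _)
    -- a computable bound
    have hsum : Computable fun k => (G k).foldl (fun s b => max s b) 0 := by
      refine RE.list_foldl (f := G) (g := fun _ => 0) (h := fun _ y => max y.1 y.2) hG
        (by fun_prop) ?_
      show Computable fun p : ℕ × ℕ × ℕ => max p.2.1 p.2.2
      fun_prop
    obtain ⟨k, hk⟩ := pp_escapes hsum
    obtain ⟨h1, h2⟩ := hGR k
    obtain ⟨h3, h4⟩ := hR0 _ h2
    -- the `k + 1` distinct elements of `G k` are values of `pp` below the bound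
    have h5 : ∀ n ∈ G k, n ≤ (G k).foldl (fun s b => max s b) 0 := by
      have h6 : ∀ (L : List ℕ) (a : ℕ), a ≤ L.foldl (fun s b => max s b) a ∧
          ∀ n ∈ L, n ≤ L.foldl (fun s b => max s b) a := by
        intro L
        induction L with
        | nil => intro a; simp
        | cons m L ih =>
          intro a
          obtain ⟨h7, h8⟩ := ih (max a m)
          refine ⟨(le_max_left a m).trans h7, ?_⟩
          intro n hn
          rcases List.mem_cons.1 hn with rfl | hn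
          · exact (le_max_right a n).trans h7
          · exact h8 n hn
      exact (h6 (G k) 0).2
    have h6 : (G k).toFinset ⊆ (Finset.range k).image pp := by
      intro n hn
      rw [List.mem_toFinset] at hn
      obtain ⟨j, _, rfl⟩ := h4 n hn
      rw [Finset.mem_image]
      refine ⟨j, Finset.mem_range.2 ?_, rfl⟩
      have h7 := lt_of_le_of_lt (h5 _ hn) hk
      exact pp_strictMono.lt_iff_lt.1 h7
    have h7 := Finset.card_le_card h6
    rw [List.toFinset_card_of_nodup h3, h1] at h7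
    have h8 := (Finset.card_image_le (s := Finset.range k) (f := pp))
    rw [Finset.card_range] at h8
    omega

/-! ### the lower levels -/

/-- Each nonempty isomorphism problem is `Π⁰₂`-hard. -/
theorem hard {K : Set Str} {a : ℕ × ℕ} (h : IsoProblem K a) {P : ℕ → Prop} (hP : Pi 2 P) :
    ∃ f : ℕ → ℕ × ℕ, Computable f ∧ ∀ x, P x ↔ IsoProblem K (f x) := by
  classical
  obtain ⟨A, hA, -, -, hi, -, -⟩ := h
  obtain ⟨q, hq, hP⟩ := hP
  have hq' : REPred q := CB.sig_one.1 hq
  let χ : ℕ → ℕ := fun z => if z ∈ Diagram A then 1 else 0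
  have hχ : Computable χ := by
    have h2 : Partrec fun x : ℕ => (Denumerable.ofNat Code a.1).eval x :=
      Code.eval_part.comp (Computable.const _) Computable.id
    exact h2.of_eq fun x => hi x
  have hT : REPred fun y : (ℕ × ℕ) × ℕ => (∀ m < y.1.2 + 1, q (y.1.1, m)) ∧ y.2 = χ y.1.2 := by
    refine RE.and ?_ (RE.eq (by fun_prop) (hχ.comp (by fun_prop)))
    refine RE.all_lt (p := fun (y : (ℕ × ℕ) × ℕ) m => q (y.1.1, m)) ?_ (by fun_prop)
    exact RE.comp hq' (f := fun x : ((ℕ × ℕ) × ℕ) × ℕ => (x.1.1.1, x.2)) (by fun_prop)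
  obtain ⟨g, hg, hg1, hg2⟩ := RE.uniformize (r := fun (y : ℕ × ℕ) v =>
    (∀ m < y.2 + 1, q (y.1, m)) ∧ v = χ y.2) hT
  obtain ⟨c, hc⟩ := Code.exists_code.1 hg
  let e : ℕ → ℕ := fun x => encode (Code.curry c x)
  have he : Computable e := Computable.encode.comp
    ((Code.primrec₂_curry.to_comp).comp (Computable.const c) Computable.id)
  have hev : ∀ x z, (Denumerable.ofNat Code (e x)).eval z = g (x, z) := by
    intro x z
    show (Denumerable.ofNat Code (encode (Code.curry c x))).eval z = _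
    rw [Denumerable.ofNat_encode, Code.eval_curry, hc]
    simp [Part.map_id']
  refine ⟨fun x => (e x, e x), he.pair he, fun x => ?_⟩
  have hPx : P x ↔ ∀ m, q (x, m) := by
    have := hP x
    constructor
    · intro h1 m
      by_contra hm
      exact this.2 ⟨m, hm⟩ h1
    · intro h1
      by_contra hc
      obtain ⟨m, hm⟩ := this.1 hc
      exact hm (h1 m)
  constructor
  · intro h1
    have h2 : IsIndex (e x) A := by
      intro z
      rw [hev]
      have h3 : (g (x, z)).Dom := (hg1 (x, z)).2 ⟨χ z, fun m _ => hPx.1 h1 m, rfl⟩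
      obtain ⟨v, hv⟩ := Part.dom_iff_mem.1 h3
      rw [Part.eq_some_iff.2 hv, (hg2 (x, z) v hv).2]
    exact ⟨A, hA, A, hA, h2, h2, Equiv.refl _, fun _ _ => Iff.rfl⟩
  · rintro ⟨B, _, _, _, h1, -, -⟩
    rw [hPx]
    intro m
    have h2 : (g (x, m)).Dom := by
      rw [← hev, h1 m]
      trivial
    obtain ⟨v, hv, -⟩ := (hg1 (x, m)).1 h2
    exact hv m (by show m < m + 1; omega)

theorem not_sig {K : Set Str} (h : Sig 2 (IsoProblem K)) (a : ℕ × ℕ) : ¬ IsoProblem K a := by
  intro ha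
  have h1 : Pi 2 fun x : ℕ => ¬ U 1 x x :=
    CB.Sig.not ((sig_U 1).comp (f := fun x : ℕ => (x, x)) (by fun_prop))
  obtain ⟨f, hf, hfe⟩ := hard ha h1
  have h2 : Sig 2 fun x : ℕ => ¬ U 1 x x := (h.comp hf).of_iff fun x => (hfe x).symm
  obtain ⟨e, he⟩ := univ_U 1 h2
  have := he e
  tauto

theorem sigma0_iff (n : ℕ) : ∀ {α : Type} [Primcodable α] {p : α → Prop},
    Sigma0 n p ↔ Sig n p := by
  induction n with
  | zero => intro α _ p; exact Iff.rfl
  | succ n ih =>
    intro α _ p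
    exact exists_congr fun q => and_congr_left fun _ => ih

/-- For the levels `Γ = Σ⁰_n`, `Π⁰_n`, `Σ¹₁`: there is a class of structures (with one binary
relation), closed under isomorphism, whose isomorphism problem is properly at the level `Γ` but is
not `Γ`-complete, if and only if `Γ` is none of `Σ⁰_n`, `Π⁰_n` with `n ≤ 2`. -/
theorem result (Γ : Level) : (∃ K : Set Str, IsoClosed K ∧ Γ.Proper (IsoProblem K) ∧
    ¬ Γ.Complete (IsoProblem K)) ↔ Γ.High := by
  constructor
  · rintro ⟨K, -, hp, hc⟩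
    by_contra hh
    have h0 : ∀ {Γ : Level}, Γ.Proper (IsoProblem K) → ¬ Γ.High → ∃ a, IsoProblem K a := by
      intro Γ hp hh
      by_contra hne
      push Not at hne
      apply hp.2
      have h1 : ComputablePred fun a : ℕ × ℕ => ¬ IsoProblem K a :=
        (RE.cp_eq (Computable.const ()) (Computable.const ())).of_eq (fun a => by simp [hne a])
      cases Γ with
      | sigma n => exact (sigma0_iff n).2 (CB.Sig.of_cp h1)
      | pi n => exact (sigma0_iff n).2 (CB.Pi.of_cp h1)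
      | sigma11 => exact absurd trivial hh
    obtain ⟨a, ha⟩ := h0 hp hh
    cases Γ with
    | sigma n =>
      have hn : n ≤ 2 := by
        have : ¬ 3 ≤ n := hh
        omega
      exact not_sig (((sigma0_iff n).1 hp.1).mono hn) a ha
    | pi n =>
      have hn : n ≤ 2 := by
        have : ¬ 3 ≤ n := hh
        omega
      by_cases h2 : n = 2
      · subst h2
        refine hc ⟨hp.1, fun q hq => hard ha ?_⟩
        exact (sigma0_iff 2).1 hq
      · have h3 : Pi n (IsoProblem K) := (sigma0_iff n).1 hp.1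
        exact not_sig (h3.toSig (by omega)) a ha
    | sigma11 => exact hh trivial
  · intro hh
    cases Γ with
    | sigma n =>
      have hn : 3 ≤ n := hh
      obtain ⟨K, h1, h2, h3, h4⟩ := main (good_sig n hn)
      refine ⟨K, h1, ⟨(sigma0_iff n).2 h2, fun h => h3 ((sigma0_iff n).1 h)⟩, fun h => h4 ?_⟩
      exact fun q hq => h.2 q ((sigma0_iff n).2 hq)
    | pi n =>
      have hn : 3 ≤ n := hh
      obtain ⟨K, h1, h2, h3, h4⟩ := main (good_pi n hn)
      refine ⟨K, h1, ⟨(sigma0_iff n).2 h2, fun h => h3 ((sigma0_iff n).1 h)⟩, fun h => h4 ?_⟩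
      exact fun q hq => h.2 q ((sigma0_iff n).2 hq)
    | sigma11 =>
      obtain ⟨K, h1, h2, h3, h4⟩ := main good_sigma11
      exact ⟨K, h1, ⟨h2, h3⟩, fun h => h4 h.2⟩

end Pool.Agent.Results.MP_be00aa_lc.ProperIncomplete
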